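import Pool.Agent.H49.SDP.Targets
import Pool.Agent.H49.SDP.Mat

/-!
# MP_c62aed_lc: semidefinite relaxations: the abstract inequality (row ABSS)
-/

set_option autoImplicit false

namespace Pool.Agent.H4.SDP

open Finset Matrix Pool.Agent.H49.SDP

/-- The block matrix with a number and a matrix. -/
noncomputable def blk {r : ℕ} (l : ℝ) (L : Matrix (Fin r) (Fin r) ℝ) :
    Matrix (Fin (1 + r)) (Fin (1 + r)) ℝ :=
  (fromBlocks (Matrix.of fun _ _ : Fin 1 => l) 0 0 L).submatrix finSumFinEquiv.symm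
    finSumFinEquiv.symm

theorem blk_psd {r : ℕ} {l : ℝ} {L : Matrix (Fin r) (Fin r) ℝ} (hl : 0 ≤ l)
    (hL : L.PosSemidef) : (blk l L).PosSemidef := by
  unfold blk
  rw [posSemidef_submatrix_equiv, posSemidef_iff_dotProduct_mulVec]
  have h0 : (Matrix.of fun _ _ : Fin 1 => l).IsHermitian := by
    ext i j
    simp
  refine ⟨IsHermitian.fromBlocks h0 (by simp) hL.1, ?_⟩
  intro x
  have h1 := (posSemidef_iff_dotProduct_mulVec.1 hL).2 (fun i => x (Sum.inr i))
  have h2 : star x ⬝ᵥ (fromBlocks (Matrix.of fun _ _ : Fin 1 => l) 0 0 L) *ᵥ x =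
      l * x (Sum.inl 0) ^ 2 + star (fun i => x (Sum.inr i)) ⬝ᵥ L *ᵥ (fun i => x (Sum.inr i)) := by
    simp only [dotProduct, mulVec, Fintype.sum_sum_type, fromBlocks_apply₁₁,
      fromBlocks_apply₁₂, fromBlocks_apply₂₁, fromBlocks_apply₂₂, Matrix.zero_apply, zero_mul,
      Finset.sum_const_zero, add_zero, zero_add, Pi.star_apply, star_trivial, Fin.sum_univ_one,
      Matrix.of_apply]
    simp
    ring
  rw [h2]
  positivity

theorem blk_trace {r : ℕ} (l l' : ℝ) (L L' : Matrix (Fin r) (Fin r) ℝ) :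
    (blk l L * blk l' L').trace = l * l' + (L * L').trace := by
  unfold blk
  rw [submatrix_mul_equiv]
  simp only [Matrix.trace, Matrix.diag_apply, submatrix_apply]
  rw [finSumFinEquiv.symm.sum_comp
    (fun i => (fromBlocks (Matrix.of fun _ _ : Fin 1 => l) 0 0 L *
      fromBlocks (Matrix.of fun _ _ : Fin 1 => l') 0 0 L') i i), Fintype.sum_sum_type]
  simp [fromBlocks_multiply, Matrix.mul_apply]

section part

variable {X Y : Type} [Fintype X]

open Classical in
/-- A sum over the cells of the partitions. -/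
theorem part_sum {M : ℕ} (A : Finset Y) (J : Y → Finset (Fin M)) (cell : Fin M → Set X)
    (hcov : ∀ a ∈ A, ∀ x, ∃ j ∈ J a, x ∈ cell j)
    (hdis : ∀ a ∈ A, ∀ j ∈ J a, ∀ j' ∈ J a, j ≠ j' → Disjoint (cell j) (cell j'))
    (t : Y → X → ℝ) :
    ∑ j, ∑ a ∈ A.filter (fun a => j ∈ J a), ∑ x ∈ univ.filter (fun x => x ∈ cell j), t a x =
      ∑ a ∈ A, ∑ x, t a x := by
  have h1 : ∀ j, ∑ a ∈ A.filter (fun a => j ∈ J a),
      ∑ x ∈ univ.filter (fun x => x ∈ cell j), t a x =
      ∑ a ∈ A, ∑ x, if j ∈ J a ∧ x ∈ cell j then t a x else 0 := by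
    intro j
    rw [Finset.sum_filter]
    refine Finset.sum_congr rfl fun a _ => ?_
    by_cases hj : j ∈ J a
    · rw [if_pos hj, Finset.sum_filter]
      exact Finset.sum_congr rfl fun x _ => by simp [hj]
    · rw [if_neg hj]
      symm
      exact Finset.sum_eq_zero fun x _ => by simp [hj]
  rw [Finset.sum_congr rfl fun j _ => h1 j, Finset.sum_comm]
  refine Finset.sum_congr rfl fun a ha => ?_
  rw [Finset.sum_comm]
  refine Finset.sum_congr rfl fun x _ => ?_
  obtain ⟨j0, hj0, hx0⟩ := hcov a ha x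
  rw [Finset.sum_eq_single j0, if_pos ⟨hj0, hx0⟩]
  · intro j _ hj
    rw [if_neg]
    rintro ⟨hjJ, hx⟩
    exact Set.disjoint_left.1 (hdis a ha j hjJ j0 hj0 hj) hx hx0
  · intro h
    exact absurd (Finset.mem_univ _) h

open Classical in
/-- The losses of one clause on one cell. -/
theorem loss_bd [Fintype Y] (K : Y → X → ℝ) (ka : ℝ) (inFc : Y → Prop) (satc : X → Prop) (hka : 0 ≤ ka)
    (hbip : ∀ (f : Y → ℝ) (g : X → ℝ), (∀ a, 0 ≤ f a) → (∀ x, 0 ≤ g x) →
      -(ka * Real.sqrt ((∑ a, f a ^ 2) * ∑ x, g x ^ 2)) ≤ ∑ a, ∑ x, f a * g x * K a x)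
    (hbiz : ∀ (f : Y → ℝ) (g : X → ℝ), (∀ a, 0 ≤ f a) → (∀ a, f a ≠ 0 → inFc a) →
      (∀ x, g x ≠ 0 → ¬ satc x) →
      |∑ a, ∑ x, f a * g x * K a x| ≤ ka * Real.sqrt ((∑ a, f a ^ 2) * ∑ x, g x ^ 2))
    (A' : Finset Y) (X' : Finset X) (l : X → ℝ) (hl1 : ∀ x ∈ X', |l x| ≤ 1)
    (hl0 : ∀ x ∈ X', satc x → l x ≤ 0) :
    ∑ a ∈ A', ∑ x ∈ X', K a x * ((if inFc a then 1 else 0) * l x) ≤
      2 * ka * Real.sqrt ((A'.card : ℝ) * X'.card) := by
  set f : Y → ℝ := fun a => if a ∈ A' ∧ inFc a then 1 else 0 with hf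
  set g1 : X → ℝ := fun x => if x ∈ X' ∧ satc x then -l x else 0 with hg1
  set g2 : X → ℝ := fun x => if x ∈ X' ∧ ¬ satc x then l x else 0 with hg2
  have f0 : ∀ a, 0 ≤ f a := fun a => by
    simp only [hf]; split_ifs <;> norm_num
  have hf2 : ∑ a, f a ^ 2 ≤ A'.card := by
    calc ∑ a, f a ^ 2 ≤ ∑ a, (if a ∈ A' then (1 : ℝ) else 0) := by
          refine Finset.sum_le_sum fun a _ => ?_
          simp only [hf]
          by_cases h : a ∈ A'
          · by_cases h' : inFc a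
            · simp [h, h']
            · simp [h, h']
          · simp [h]
      _ = A'.card := by simp
  have hsq : ∀ x ∈ X', l x ^ 2 ≤ 1 := by
    intro x hx
    have := hl1 x hx
    rw [← sq_abs]
    have h0 := abs_nonneg (l x)
    nlinarith
  have hX' : ∑ x, (if x ∈ X' then (1 : ℝ) else 0) = X'.card := by simp
  have hg1s : ∑ x, g1 x ^ 2 ≤ X'.card := by
    rw [← hX']
    refine Finset.sum_le_sum fun x _ => ?_
    simp only [hg1]
    by_cases hx : x ∈ X'
    · by_cases hs : satc x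
      · simp only [hx, hs, and_true, if_true]
        have := hsq x hx
        nlinarith
      · simp [hx, hs]
    · simp [hx]
  have hg2s : ∑ x, g2 x ^ 2 ≤ X'.card := by
    rw [← hX']
    refine Finset.sum_le_sum fun x _ => ?_
    simp only [hg2]
    by_cases hx : x ∈ X'
    · by_cases hs : satc x
      · simp [hx, hs]
      · simp only [hx, hs, not_false_eq_true, and_true, if_true]
        exact hsq x hx
    · simp [hx]
  have e1 := hbip f g1 f0 (by
    intro x
    simp only [hg1]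
    by_cases hx : x ∈ X' ∧ satc x
    · rw [if_pos hx]
      have := hl0 x hx.1 hx.2
      linarith
    · rw [if_neg hx])
  have e2 := hbiz f g2 f0 (by
    intro a ha
    by_contra hc
    apply ha
    simp only [hf]
    rw [if_neg (fun h => hc h.2)]) (by
    intro x hx
    by_contra hc
    apply hx
    simp only [hg2]
    rw [if_neg (fun h => h.2 hc)])
  have s1 : Real.sqrt ((∑ a, f a ^ 2) * ∑ x, g1 x ^ 2) ≤ Real.sqrt ((A'.card : ℝ) * X'.card) :=
    Real.sqrt_le_sqrt (mul_le_mul hf2 hg1s (Finset.sum_nonneg fun x _ => sq_nonneg _)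
      (Nat.cast_nonneg _))
  have s2 : Real.sqrt ((∑ a, f a ^ 2) * ∑ x, g2 x ^ 2) ≤ Real.sqrt ((A'.card : ℝ) * X'.card) :=
    Real.sqrt_le_sqrt (mul_le_mul hf2 hg2s (Finset.sum_nonneg fun x _ => sq_nonneg _)
      (Nat.cast_nonneg _))
  have hT : ∑ a ∈ A', ∑ x ∈ X', K a x * ((if inFc a then 1 else 0) * l x) =
      -(∑ a, ∑ x, f a * g1 x * K a x) + ∑ a, ∑ x, f a * g2 x * K a x := by
    rw [← Finset.sum_neg_distrib, ← Finset.sum_add_distrib]
    have h1 : ∀ a, -(∑ x, f a * g1 x * K a x) + ∑ x, f a * g2 x * K a x =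
        if a ∈ A' then ∑ x ∈ X', K a x * ((if inFc a then 1 else 0) * l x) else 0 := by
      intro a
      by_cases ha : a ∈ A'
      · rw [if_pos ha, ← Finset.sum_neg_distrib, ← Finset.sum_add_distrib]
        rw [← Finset.sum_filter_add_sum_filter_not univ (fun x => x ∈ X')
          (fun x => -(f a * g1 x * K a x) + f a * g2 x * K a x)]
        rw [Finset.sum_eq_zero (s := univ.filter (fun x => ¬ x ∈ X')), add_zero]
        · rw [Finset.filter_mem_eq_inter, Finset.univ_inter]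
          refine Finset.sum_congr rfl fun x hx => ?_
          simp only [hf, hg1, hg2]
          by_cases hi : inFc a
          · by_cases hs : satc x
            · simp [ha, hi, hx, hs]; ring
            · simp [ha, hi, hx, hs]; ring
          · simp [hi]
        · intro x hx
          rw [Finset.mem_filter] at hx
          simp [hg1, hg2, hx.2]
      · rw [if_neg ha]
        have h2 : f a = 0 := by simp [hf, ha]
        simp [h2]
    rw [Finset.sum_congr rfl fun a _ => h1 a]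
    simp
  have e3 := (le_abs_self _).trans e2
  have m1 := mul_le_mul_of_nonneg_left s1 hka
  have m2 := mul_le_mul_of_nonneg_left s2 hka
  rw [hT]
  linarith

end part

/-- Row ABSS: the abstract inequality. -/
theorem pf_ABSS : S_ABSS := by
  classical
  intro X Y C _ _ _ K ka kb Mx inF sat hka hkb hMx hKM hK hbip hbiz hcell M A J cell r S L lam0
    ls de F hde hF hcov hdis hS hL hlam0 hls1 hls0 heq
  have hMx0 : 0 < Mx := by linarith
  have hkb0 : 0 ≤ kb := hka.trans hkb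
  set m : ℝ := (Fintype.card C : ℝ) with hm
  set s2 : ℝ := (A.card : ℝ) * Fintype.card X with hs2
  set W : ℝ := ∑ j, ((r j : ℝ) + 1) ^ 2 with hW
  have W0 : 0 ≤ W := Finset.sum_nonneg fun j _ => by positivity
  have m0 : 0 ≤ m := Nat.cast_nonneg _
  have s20 : 0 ≤ s2 := by positivity
  have hR0 : 0 ≤ 32768 * Mx ^ 3 * m ^ 5 * kb ^ 2 * W := by positivity
  rw [mul_assoc, ← hs2]
  rcases eq_or_lt_of_le s20 with h0 | h0
  · rw [← h0, mul_zero]
    exact hR0
  have hA0 : A.card ≠ 0 := by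
    intro h
    rw [hs2, h] at h0
    simp at h0
  have hX0 : Fintype.card X ≠ 0 := by
    intro h
    rw [hs2, h] at h0
    simp at h0
  obtain ⟨a0, ha0⟩ := Finset.card_pos.1 (Nat.pos_of_ne_zero hA0)
  obtain ⟨x0⟩ := Fintype.card_pos_iff.1 (Nat.pos_of_ne_zero hX0)
  -- the error
  have herr : de / (4 * Mx) ≤ de / 4 := by
    apply div_le_div_of_nonneg_left hde.le (by norm_num)
    linarith
  have hlsm : ∀ a j, ∀ x ∈ cell j, ∑ c ∈ F a, ls j c x ≤ m := by
    intro a j x hx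
    calc ∑ c ∈ F a, ls j c x ≤ ∑ c ∈ F a, (1 : ℝ) :=
          Finset.sum_le_sum fun c _ => (le_abs_self _).trans (hls1 j c x hx)
      _ = (F a).card := by simp
      _ ≤ m := by
          rw [hm]
          exact_mod_cast Finset.card_le_univ _
  -- the values
  set v : Y → Fin M → X → ℝ := fun a j x => lam0 a j + (L a j * S j x).trace with hv
  have hv0 : ∀ a j, ∀ x ∈ cell j, 0 ≤ v a j x := fun a j x hx =>
    add_nonneg (hlam0 a j) (trace_mul_nonneg (hL a j) (hS j x hx))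
  have hvm : ∀ a ∈ A, ∀ j ∈ J a, ∀ x ∈ cell j, v a j x ≤ m := by
    intro a ha j hj x hx
    have h1 := (abs_le.1 (heq a ha j hj x hx)).1
    have h2 := hlsm a j x hx
    simp only [hv]
    linarith
  have hmde : 3 / 4 * de ≤ m := by
    obtain ⟨j0, hj0, hx0⟩ := hcov a0 ha0 x0
    have h1 := (abs_le.1 (heq a0 ha0 j0 hj0 x0 hx0)).1
    have h2 := hlsm a0 j0 x0 hx0
    have h3 := hv0 a0 j0 x0 hx0
    have h4 := (abs_le.1 (heq a0 ha0 j0 hj0 x0 hx0)).2
    simp only [hv] at h3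
    linarith
  have mpos : 0 < m := by linarith
  -- the parameter
  set σ : ℝ := Real.sqrt (de / (8 * Mx * m)) with hσ
  have hσ2 : σ ^ 2 = de / (8 * Mx * m) := Real.sq_sqrt (by positivity)
  have hσ0 : 0 < σ := Real.sqrt_pos.2 (by positivity)
  have hσ1 : σ ≤ 1 := by
    rw [hσ, Real.sqrt_le_one, div_le_one (by positivity)]
    nlinarith
  have hσm : 2 * Mx * σ ^ 2 * m = de / 4 := by
    rw [hσ2]
    field_simp
    ring
  -- the cells
  set Aj : Fin M → Finset Y := fun j => A.filter (fun a => j ∈ J a) with hAj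
  set Xj : Fin M → Finset X := fun j => univ.filter (fun x => x ∈ cell j) with hXj
  set nj : Fin M → ℝ := fun j => ((Aj j).card : ℝ) * (Xj j).card with hnj
  have nj0 : ∀ j, 0 ≤ nj j := fun j => by positivity
  have hpart : ∀ t : Y → X → ℝ, ∑ j, ∑ a ∈ Aj j, ∑ x ∈ Xj j, t a x = ∑ a ∈ A, ∑ x, t a x :=
    fun t => part_sum A J cell hcov hdis t
  have hnjs : ∑ j, nj j = s2 := by
    have h1 := hpart (fun _ _ => 1)
    simp only [Finset.sum_const, nsmul_eq_mul, mul_one, Finset.card_univ] at h1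
    rw [hs2, ← h1]
  have hKs : ∑ j, ∑ a ∈ Aj j, ∑ x ∈ Xj j, K a x = s2 := by
    rw [hpart, Finset.sum_congr rfl fun a _ => hK a, Finset.sum_const, nsmul_eq_mul, hs2]
  -- the cell inequality
  have hcj : ∀ j, -(m * (2 * Mx * σ ^ 2 * nj j +
      2 * kb * ((r j : ℝ) + 1) / σ ^ 3 * Real.sqrt (nj j))) ≤
      ∑ a ∈ Aj j, ∑ x ∈ Xj j, K a x * v a j x := by
    intro j
    have h1 := hcell (1 + r j) (fun a => blk (lam0 a j) (L a j))
      (fun x => if x ∈ cell j then blk 1 (S j x) else 0)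
      (fun a => blk_psd (hlam0 a j) (hL a j))
      (fun x => by
        by_cases hx : x ∈ cell j
        · simp only [if_pos hx]
          exact blk_psd zero_le_one (hS j x hx)
        · simp only [if_neg hx]
          exact PosSemidef.zero)
      (Aj j) (Xj j) m σ m0 hσ0 hσ1 (by
        intro a ha x hx
        have hx' : x ∈ cell j := (Finset.mem_filter.1 hx).2
        have ha' := Finset.mem_filter.1 ha
        simp only [if_pos hx']
        rw [blk_trace, mul_one]
        exact hvm a ha'.1 j ha'.2 x hx')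
    have h2 : ∑ a ∈ Aj j, ∑ x ∈ Xj j, K a x * v a j x =
        ∑ a ∈ Aj j, ∑ x ∈ Xj j, K a x * (blk (lam0 a j) (L a j) *
          (if x ∈ cell j then blk 1 (S j x) else 0)).trace := by
      refine Finset.sum_congr rfl fun a ha => Finset.sum_congr rfl fun x hx => ?_
      have hx' : x ∈ cell j := (Finset.mem_filter.1 hx).2
      rw [if_pos hx', blk_trace, mul_one]
    rw [h2]
    have h3 : (((1 + r j : ℕ) : ℕ) : ℝ) = (r j : ℝ) + 1 := by push_cast; ring
    rw [h3] at h1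
    exact h1
  -- the losses
  have hFs : ∀ a j x, ∑ c ∈ F a, ls j c x = ∑ c, (if inF a c then 1 else 0) * ls j c x := by
    intro a j x
    have h1 : F a = univ.filter (fun c => inF a c) := by
      ext c
      simp [hF a c]
    rw [h1, Finset.sum_filter]
    exact Finset.sum_congr rfl fun c _ => by split_ifs <;> simp
  have hloss : ∀ j, ∑ a ∈ Aj j, ∑ x ∈ Xj j, K a x * ∑ c ∈ F a, ls j c x ≤
      2 * ka * m * Real.sqrt (nj j) := by
    intro j
    have h1 : ∑ a ∈ Aj j, ∑ x ∈ Xj j, K a x * ∑ c ∈ F a, ls j c x =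
        ∑ c, ∑ a ∈ Aj j, ∑ x ∈ Xj j, K a x * ((if inF a c then 1 else 0) * ls j c x) := by
      symm
      rw [Finset.sum_comm]
      refine Finset.sum_congr rfl fun a _ => ?_
      rw [Finset.sum_comm]
      refine Finset.sum_congr rfl fun x _ => ?_
      rw [hFs, Finset.mul_sum]
    rw [h1]
    calc ∑ c, ∑ a ∈ Aj j, ∑ x ∈ Xj j, K a x * ((if inF a c then 1 else 0) * ls j c x)
        ≤ ∑ c : C, 2 * ka * Real.sqrt (nj j) := by
          refine Finset.sum_le_sum fun c _ => ?_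
          exact loss_bd K ka (fun a => inF a c) (sat c) hka hbip (fun f g => hbiz c f g)
            (Aj j) (Xj j) (ls j c)
            (fun x hx => hls1 j c x (Finset.mem_filter.1 hx).2)
            (fun x hx => hls0 j c x (Finset.mem_filter.1 hx).2)
      _ = 2 * ka * m * Real.sqrt (nj j) := by
          rw [Finset.sum_const, nsmul_eq_mul, Finset.card_univ, ← hm]
          ring
  -- comparison on the cells
  have hcmp : ∀ j, (∑ a ∈ Aj j, ∑ x ∈ Xj j, K a x * v a j x) +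
      de * (∑ a ∈ Aj j, ∑ x ∈ Xj j, K a x) - de / 4 * nj j ≤
      ∑ a ∈ Aj j, ∑ x ∈ Xj j, K a x * ∑ c ∈ F a, ls j c x := by
    intro j
    have h1 : ∑ a ∈ Aj j, ∑ x ∈ Xj j, (-(de / 4)) ≤
        ∑ a ∈ Aj j, ∑ x ∈ Xj j, (K a x * ∑ c ∈ F a, ls j c x - K a x * v a j x -
          de * K a x) := by
      refine Finset.sum_le_sum fun a ha => Finset.sum_le_sum fun x hx => ?_
      have hx' : x ∈ cell j := (Finset.mem_filter.1 hx).2
      have ha' := Finset.mem_filter.1 ha
      have h2 := heq a ha'.1 j ha'.2 x hx'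
      have h3 : K a x * ∑ c ∈ F a, ls j c x - K a x * v a j x - de * K a x =
          K a x * (∑ c ∈ F a, ls j c x - de - (lam0 a j + (L a j * S j x).trace)) := by
        simp only [hv]
        ring
      rw [h3]
      have h4 : |K a x * (∑ c ∈ F a, ls j c x - de - (lam0 a j + (L a j * S j x).trace))| ≤
          Mx * (de / (4 * Mx)) := by
        rw [abs_mul]
        exact mul_le_mul (hKM a x) h2 (abs_nonneg _) hMx0.le
      have h5 : Mx * (de / (4 * Mx)) = de / 4 := by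
        field_simp
      rw [h5] at h4
      exact (abs_le.1 h4).1
    simp only [Finset.sum_sub_distrib, ← Finset.mul_sum] at h1
    simp only [Finset.sum_const, nsmul_eq_mul] at h1
    have h2 : ((Aj j).card : ℝ) * (((Xj j).card : ℝ) * (-(de / 4))) = -(de / 4 * nj j) := by
      simp only [hnj]
      ring
    rw [h2] at h1
    linarith
  -- the sum over the cells
  set Q : ℝ := ∑ j, ((r j : ℝ) + 1) * Real.sqrt (nj j) with hQ
  have hQ1 : ∑ j, Real.sqrt (nj j) ≤ Q := by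
    refine Finset.sum_le_sum fun j _ => ?_
    have h1 : (0 : ℝ) ≤ r j := Nat.cast_nonneg _
    have h2 := Real.sqrt_nonneg (nj j)
    nlinarith
  have hQ0 : 0 ≤ Q := Finset.sum_nonneg fun j _ => by positivity
  have hQ2 : Q ^ 2 ≤ W * s2 := by
    have h1 := Finset.sum_mul_sq_le_sq_mul_sq (univ : Finset (Fin M)) (fun j => (r j : ℝ) + 1)
      (fun j => Real.sqrt (nj j))
    have h2 : ∑ j, Real.sqrt (nj j) ^ 2 = s2 := by
      rw [← hnjs]
      exact Finset.sum_congr rfl fun j _ => Real.sq_sqrt (nj0 j)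
    rw [h2] at h1
    exact h1
  have hS1 : ∑ j, ∑ a ∈ Aj j, ∑ x ∈ Xj j, K a x * ∑ c ∈ F a, ls j c x ≤ 2 * ka * m * Q := by
    calc ∑ j, ∑ a ∈ Aj j, ∑ x ∈ Xj j, K a x * ∑ c ∈ F a, ls j c x
        ≤ ∑ j, 2 * ka * m * Real.sqrt (nj j) := Finset.sum_le_sum fun j _ => hloss j
      _ = 2 * ka * m * ∑ j, Real.sqrt (nj j) := by rw [Finset.mul_sum]
      _ ≤ 2 * ka * m * Q := mul_le_mul_of_nonneg_left hQ1 (by positivity)
  have hS2 : -(de / 4 * s2 + 2 * m * kb / σ ^ 3 * Q) ≤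
      ∑ j, ∑ a ∈ Aj j, ∑ x ∈ Xj j, K a x * v a j x := by
    have h1 := Finset.sum_le_sum fun j (_ : j ∈ (univ : Finset (Fin M))) => hcj j
    have h2 : ∑ j, -(m * (2 * Mx * σ ^ 2 * nj j +
        2 * kb * ((r j : ℝ) + 1) / σ ^ 3 * Real.sqrt (nj j))) =
        -(2 * Mx * σ ^ 2 * m * ∑ j, nj j + 2 * m * kb / σ ^ 3 * Q) := by
      rw [hQ, Finset.sum_neg_distrib, Finset.mul_sum, Finset.mul_sum, ← Finset.sum_add_distrib]
      congr 1
      refine Finset.sum_congr rfl fun j _ => ?_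
      ring
    rw [h2, hnjs, hσm] at h1
    exact h1
  have hS3 : (∑ j, ∑ a ∈ Aj j, ∑ x ∈ Xj j, K a x * v a j x) + de * s2 - de / 4 * s2 ≤
      ∑ j, ∑ a ∈ Aj j, ∑ x ∈ Xj j, K a x * ∑ c ∈ F a, ls j c x := by
    have h1 := Finset.sum_le_sum fun j (_ : j ∈ (univ : Finset (Fin M))) => hcmp j
    rw [Finset.sum_sub_distrib, Finset.sum_add_distrib, ← Finset.mul_sum, ← Finset.mul_sum,
      hnjs, hKs] at h1
    exact h1
  have hσ3 : 1 ≤ 1 / σ ^ 3 := by
    rw [le_div_iff₀ (by positivity), one_mul]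
    exact pow_le_one₀ hσ0.le hσ1
  have hkey : de / 2 * s2 ≤ 4 * m * kb / σ ^ 3 * Q := by
    have h1 : 2 * ka * m * Q ≤ 2 * m * kb / σ ^ 3 * Q := by
      refine mul_le_mul_of_nonneg_right ?_ hQ0
      calc 2 * ka * m ≤ 2 * kb * m := by
            have := mul_le_mul_of_nonneg_right hkb m0
            linarith
        _ = 2 * m * kb * 1 := by ring
        _ ≤ 2 * m * kb * (1 / σ ^ 3) := mul_le_mul_of_nonneg_left hσ3 (by positivity)
        _ = 2 * m * kb / σ ^ 3 := by ring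
    have h2 : 4 * m * kb / σ ^ 3 * Q = 2 * m * kb / σ ^ 3 * Q + 2 * m * kb / σ ^ 3 * Q := by
      ring
    linarith
  have hsq : (de / 2 * s2) ^ 2 ≤ (4 * m * kb / σ ^ 3) ^ 2 * (W * s2) := by
    calc (de / 2 * s2) ^ 2 ≤ (4 * m * kb / σ ^ 3 * Q) ^ 2 :=
          pow_le_pow_left₀ (by positivity) hkey 2
      _ = (4 * m * kb / σ ^ 3) ^ 2 * Q ^ 2 := by ring
      _ ≤ (4 * m * kb / σ ^ 3) ^ 2 * (W * s2) :=
          mul_le_mul_of_nonneg_left hQ2 (sq_nonneg _)
  have hσ6 : (4 * m * kb / σ ^ 3) ^ 2 = 16 * m ^ 2 * kb ^ 2 * (8 * Mx * m / de) ^ 3 := by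
    have h1 : (σ ^ 3) ^ 2 = (de / (8 * Mx * m)) ^ 3 := by
      rw [← hσ2]
      ring
    rw [div_pow, h1]
    field_simp
    ring
  rw [hσ6] at hsq
  have h7 : de ^ 3 * (de / 2 * s2) ^ 2 ≤
      16 * m ^ 2 * kb ^ 2 * (8 * Mx * m) ^ 3 * (W * s2) := by
    calc de ^ 3 * (de / 2 * s2) ^ 2
        ≤ de ^ 3 * (16 * m ^ 2 * kb ^ 2 * (8 * Mx * m / de) ^ 3 * (W * s2)) :=
          mul_le_mul_of_nonneg_left hsq (by positivity)
      _ = 16 * m ^ 2 * kb ^ 2 * (8 * Mx * m) ^ 3 * (W * s2) := by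
          field_simp
  have h8 : de ^ 5 * s2 * s2 ≤ 32768 * Mx ^ 3 * m ^ 5 * kb ^ 2 * W * s2 := by
    have e1 : de ^ 5 * s2 * s2 = 4 * (de ^ 3 * (de / 2 * s2) ^ 2) := by ring
    have e2 : 32768 * Mx ^ 3 * m ^ 5 * kb ^ 2 * W * s2 =
        4 * (16 * m ^ 2 * kb ^ 2 * (8 * Mx * m) ^ 3 * (W * s2)) := by ring
    rw [e1, e2]
    linarith
  exact le_of_mul_le_mul_right h8 h0

end Pool.Agent.H4.SDP
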